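import Pool.Agent.H306R2.SM.Asm6
import Pool.Agent.H223.EM.Defs

set_option autoImplicit false

/-! Task T11 of the project EM: the twisted second moment in the mean. -/

namespace Pool.Agent.H133R2.EM11

open Finset Filter Topology MeasureTheory Complex
open Pool.Agent.H306R2 Pool.Agent.H306R2.SM Pool.Agent.H223.EM

noncomputable section

/-- the Dirichlet polynomial -/
def Af (N : ℕ) (a : ℕ → ℝ) (t : ℝ) : ℂ :=
  ∑ n ∈ Icc 1 N, ((a n / Real.sqrt n : ℝ) : ℂ) * ef (-(Real.log n)) t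

/-- the polynomial with rational frequencies -/
def Cf (S : Finset (ℕ × ℕ)) (c : ℕ × ℕ → ℝ) (t : ℝ) : ℂ :=
  ∑ b ∈ S, (c b : ℂ) * ef (Real.log ((b.1 : ℝ) / b.2)) t

lemma PG_Af (N : ℕ) (a : ℕ → ℝ) : PG (Af N a) :=
  PG.sum _ fun _ _ => (PG.const _).mul (PG.ef _)

lemma PG_Cf (S : Finset (ℕ × ℕ)) (c : ℕ × ℕ → ℝ) : PG (Cf S c) :=
  PG.sum _ fun _ _ => (PG.const _).mul (PG.ef _)

lemma sum_a_le {T ε : ℝ} (hT : 1 < T) (N : ℕ) (hN : (N : ℝ) ≤ T ^ (1 / 2 - ε)) (a : ℕ → ℝ)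
    (ha : ∀ n, |a n| ≤ d2 n) :
    ∑ n ∈ Icc 1 N, |a n / Real.sqrt n| ≤ T ^ (3 / 4 - 3 / 2 * ε) := by
  have hT0 : 0 < T := by linarith
  have h1 : ∀ n ∈ Icc 1 N, |a n / Real.sqrt n| ≤ Real.sqrt N := by
    intro n hn
    have hn1 := (mem_Icc.1 hn).1
    have hnN := (mem_Icc.1 hn).2
    have hn0 : (0 : ℝ) < n := by exact_mod_cast hn1
    rw [abs_div, abs_of_pos (Real.sqrt_pos.2 hn0), div_le_iff₀ (Real.sqrt_pos.2 hn0)]
    calc |a n| ≤ d2 n := ha n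
      _ ≤ n := by
          unfold d2
          exact_mod_cast Nat.card_divisors_le_self n
      _ = Real.sqrt n * Real.sqrt n := (Real.mul_self_sqrt hn0.le).symm
      _ ≤ Real.sqrt N * Real.sqrt n := by
          have : (n : ℝ) ≤ N := by exact_mod_cast hnN
          gcongr
  calc ∑ n ∈ Icc 1 N, |a n / Real.sqrt n| ≤ ∑ _n ∈ Icc 1 N, Real.sqrt N := sum_le_sum h1
    _ = N * Real.sqrt N := by simp
    _ ≤ T ^ (1 / 2 - ε) * Real.sqrt (T ^ (1 / 2 - ε)) := by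
        gcongr
    _ = T ^ (3 / 4 - 3 / 2 * ε) := by
        rw [Real.sqrt_eq_rpow, ← Real.rpow_mul hT0.le, ← Real.rpow_add hT0]
        congr 1
        ring

lemma Af_norm (N : ℕ) (a : ℕ → ℝ) (t : ℝ) :
    ‖Af N a t‖ ≤ ∑ n ∈ Icc 1 N, |a n / Real.sqrt n| := by
  unfold Af
  refine (norm_sum_le _ _).trans (sum_le_sum fun n _ => ?_)
  rw [norm_mul, ef_norm, mul_one, Complex.norm_real, Real.norm_eq_abs]

lemma Cf_norm (S : Finset (ℕ × ℕ)) (c : ℕ × ℕ → ℝ) (t : ℝ) :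
    ‖Cf S c t‖ ≤ ∑ b ∈ S, |c b| := by
  unfold Cf
  refine (norm_sum_le _ _).trans (sum_le_sum fun n _ => ?_)
  rw [norm_mul, ef_norm, mul_one, Complex.norm_real, Real.norm_eq_abs]

lemma card_S {T ε : ℝ} (hT : 1 < T) (S : Finset (ℕ × ℕ))
    (hS : ∀ b ∈ S, Adm ε T b) : (S.card : ℝ) ≤ T ^ (1 - 2 * ε) := by
  have hT0 : 0 < T := by linarith
  have hsub : S ⊆ Icc 1 ⌊T ^ (1 / 2 - ε)⌋₊ ×ˢ Icc 1 ⌊T ^ (1 / 2 - ε)⌋₊ := by
    intro b hb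
    obtain ⟨h1, h2, -, h3, h4⟩ := hS b hb
    rw [mem_product, mem_Icc, mem_Icc]
    exact ⟨⟨h1, Nat.le_floor h3⟩, ⟨h2, Nat.le_floor h4⟩⟩
  have h1 := card_le_card hsub
  rw [card_product, Nat.card_Icc, Nat.add_sub_cancel] at h1
  have h2 : (⌊T ^ (1 / 2 - ε)⌋₊ : ℝ) ≤ T ^ (1 / 2 - ε) := Nat.floor_le (by positivity)
  calc (S.card : ℝ) ≤ (⌊T ^ (1 / 2 - ε)⌋₊ : ℝ) * ⌊T ^ (1 / 2 - ε)⌋₊ := by exact_mod_cast h1
    _ ≤ T ^ (1 / 2 - ε) * T ^ (1 / 2 - ε) := by gcongr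
    _ = T ^ (1 - 2 * ε) := by
        rw [← Real.rpow_add hT0]
        congr 1
        ring

lemma sum_c_sq {T ε : ℝ} (hε : 0 < ε) (hT : 1 < T) (S : Finset (ℕ × ℕ))
    (hS : ∀ b ∈ S, Adm ε T b) (c : ℕ × ℕ → ℝ) :
    (∑ b ∈ S, |c b|) ^ 2 ≤ T * ∑ b ∈ S, c b ^ 2 := by
  have hT0 : 0 < T := by linarith
  have h1 := sq_sum_le_card_mul_sum_sq (s := S) (f := fun b => |c b|)
  simp only [sq_abs] at h1
  have h2 : (S.card : ℝ) ≤ T := (card_S hT S hS).trans (by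
    calc T ^ (1 - 2 * ε) ≤ T ^ (1 : ℝ) :=
          Real.rpow_le_rpow_of_exponent_le hT.le (by linarith)
      _ = T := Real.rpow_one T)
  exact h1.trans (mul_le_mul_of_nonneg_right h2 (sum_nonneg fun b _ => sq_nonneg _))

lemma sum_c {T ε : ℝ} (hε : 0 < ε) (hT : 1 < T) (S : Finset (ℕ × ℕ))
    (hS : ∀ b ∈ S, Adm ε T b) (c : ℕ × ℕ → ℝ) :
    ∑ b ∈ S, |c b| ≤ T * (1 + ∑ b ∈ S, c b ^ 2) := by
  have h1 := sum_c_sq hε hT S hS c
  have h0 : 0 ≤ ∑ b ∈ S, |c b| := sum_nonneg fun b _ => abs_nonneg _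
  have hQ : 0 ≤ ∑ b ∈ S, c b ^ 2 := sum_nonneg fun b _ => sq_nonneg _
  refine abs_le_of_sq_le_sq' ?_ (by positivity) |>.2
  refine h1.trans ?_
  nlinarith [mul_nonneg (sub_nonneg.2 hT.le) (mul_nonneg hQ hQ), mul_nonneg (by linarith : (0:ℝ) ≤ T) hQ]

lemma int_C {T ε : ℝ} (hε : 0 < ε) (hT : 1 < T) (k : ℕ) (hδ : 0 < (k : ℝ) / T)
    (hp : ((k / T) / (1 / (2 * T ^ (1 - 2 * ε)))) ^ (k + 1) ≤ T ^ (-5 : ℝ))
    (S : Finset (ℕ × ℕ)) (hS : ∀ b ∈ S, Adm ε T b) (c : ℕ × ℕ → ℝ) :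
    ∫ t in Set.Ioi (0 : ℝ), om k (k / T) t * ‖Cf S c t‖ ^ 2 ≤ 2 * ∑ b ∈ S, c b ^ 2 := by
  have hT0 : 0 < T := by linarith
  have hsep : ∀ i ∈ S, ∀ j ∈ S, i ≠ j → 1 / (2 * T ^ (1 - 2 * ε)) ≤
      |(-Real.log ((i.1 : ℝ) / i.2)) - (-Real.log ((j.1 : ℝ) / j.2))| := by
    intro i hi j hj hij
    obtain ⟨a1, a2, a3, a4, a5⟩ := hS i hi
    obtain ⟨b1, b2, b3, b4, b5⟩ := hS j hj
    have hM : ∀ x y : ℕ, (x : ℝ) ≤ T ^ (1 / 2 - ε) → (y : ℝ) ≤ T ^ (1 / 2 - ε) →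
        (x : ℝ) * y ≤ T ^ (1 - 2 * ε) := by
      intro x y hx hy
      calc (x : ℝ) * y ≤ T ^ (1 / 2 - ε) * T ^ (1 / 2 - ε) := by gcongr
        _ = T ^ (1 - 2 * ε) := by
            rw [← Real.rpow_add hT0]
            congr 1
            ring
    have h := rat_sep (T ^ (1 - 2 * ε)) i.1 i.2 j.1 j.2 a1 a2 b1 b2 a3 b3 (fun h => hij h)
      (hM _ _ a4 a5) (hM _ _ b4 b5)
    rwa [neg_sub_neg, abs_sub_comm]
  have h := norm_diag S (fun b => (c b : ℂ)) (fun b => -Real.log ((b.1 : ℝ) / b.2))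
    (1 / (2 * T ^ (1 - 2 * ε))) (by positivity) hsep k (k / T) hδ
  simp only [neg_neg, Complex.norm_real, Real.norm_eq_abs, sq_abs] at h
  have h2 := (abs_le.1 h).2
  have h3 := sum_c_sq hε hT S hS c
  have hQ : 0 ≤ ∑ b ∈ S, c b ^ 2 := sum_nonneg fun b _ => sq_nonneg _
  have h4 : (∑ b ∈ S, |c b|) ^ 2 * ((k / T) / (1 / (2 * T ^ (1 - 2 * ε)))) ^ (k + 1) ≤
      ∑ b ∈ S, c b ^ 2 := by
    calc (∑ b ∈ S, |c b|) ^ 2 * ((k / T) / (1 / (2 * T ^ (1 - 2 * ε)))) ^ (k + 1)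
        ≤ (T * ∑ b ∈ S, c b ^ 2) * T ^ (-5 : ℝ) := by
          apply mul_le_mul h3 hp (by positivity) (by positivity)
      _ = (T * T ^ (-5 : ℝ)) * ∑ b ∈ S, c b ^ 2 := by ring
      _ ≤ 1 * ∑ b ∈ S, c b ^ 2 := by
          apply mul_le_mul_of_nonneg_right _ hQ
          have e1 : T * T ^ (-5 : ℝ) = T ^ (-4 : ℝ) := by
            nth_rewrite 1 [← Real.rpow_one T]
            rw [← Real.rpow_add hT0]
            norm_num
          rw [e1]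
          exact Real.rpow_le_one_of_one_le_of_nonpos hT.le (by norm_num)
      _ = _ := one_mul _
  have h5 : (fun t : ℝ => om k (k / T) t * ‖Cf S c t‖ ^ 2) = fun t : ℝ => om k (k / T) t *
      ‖∑ i ∈ S, (c i : ℂ) * ef (Real.log ((i.1 : ℝ) / i.2)) t‖ ^ 2 := rfl
  rw [h5]
  linarith

lemma z2_bound {t : ℝ} (ht : 0 ≤ t) : ‖riemannZeta (cl t) ^ 2‖ ≤ 576 * (1 + t) ^ 4 := by
  rw [norm_pow]
  calc ‖riemannZeta (cl t)‖ ^ 2 ≤ (24 * (1 + t) ^ 2) ^ 2 :=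
        pow_le_pow_left₀ (norm_nonneg _) (zeta_cl_bound t ht) 2
    _ = _ := by ring

lemma D_est {T : ℝ} (hT : 1 < T) {k : ℕ} {δ : ℝ} (hδ : 0 < δ)
    (ha : ∀ t : ℝ, 0 < t → ‖(om k δ t : ℂ) * Xf (cl t) - Gf k δ (cl t)‖ ≤
        T ^ (-(3 / 4) : ℝ) * om k δ t + T ^ (-20 : ℝ) * (1 + t) ^ (-20 : ℝ))
    (u v : ℝ → ℂ) (hu : Continuous u) (hv : PG v) (MU MV : ℝ) (hMU : ∀ t, ‖u t‖ ≤ MU)
    (hMV : ∀ t, ‖v t‖ ≤ MV) :
    IntegrableOn (fun t : ℝ => riemannZeta (cl t) ^ 2 *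
      ((om k δ t : ℂ) * Xf (cl t) - Gf k δ (cl t)) * (u t * v t)) (Set.Ioi 0) ∧
    ‖∫ t in Set.Ioi (0 : ℝ), riemannZeta (cl t) ^ 2 *
      ((om k δ t : ℂ) * Xf (cl t) - Gf k δ (cl t)) * (u t * v t)‖ ≤
      MU * (T ^ (-(3 / 4) : ℝ) * (1 + (∫ t in Set.Ioi (0 : ℝ), om k δ t *
        ‖riemannZeta (cl t)‖ ^ 8) + ∫ t in Set.Ioi (0 : ℝ), om k δ t * ‖v t‖ ^ 2)) +
        T ^ (-20 : ℝ) * (576 * MU * MV) := by
  have hT0 : 0 < T := by linarith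
  have hMU0 : 0 ≤ MU := (norm_nonneg _).trans (hMU 0)
  have hMV0 : 0 ≤ MV := (norm_nonneg _).trans (hMV 0)
  have hcz : Continuous (fun t => riemannZeta (cl t)) := PG.zeta.1
  set D : ℝ → ℂ := fun t => riemannZeta (cl t) ^ 2 *
      ((om k δ t : ℂ) * Xf (cl t) - Gf k δ (cl t)) * (u t * v t) with hD
  have hDc : Continuous D := by
    refine ((hcz.pow 2).mul ?_).mul (hu.mul hv.1)
    exact ((continuous_ofReal.comp (om_cont k δ)).mul Xf_continuous).sub (Gf_cont k hδ)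
  set g : ℝ → ℝ := fun t => MU * (T ^ (-(3 / 4) : ℝ) * (om k δ t + om k δ t *
    ‖riemannZeta (cl t)‖ ^ 8 + om k δ t * ‖v t‖ ^ 2)) +
    T ^ (-20 : ℝ) * (576 * MU * MV * (1 + t) ^ (-14 : ℝ)) with hg
  have i8 : IntegrableOn (fun t => om k δ t * ‖riemannZeta (cl t)‖ ^ 8) (Set.Ioi 0) := by
    refine (PGnsq (PG.zeta.pow 4) k hδ).congr (Eventually.of_forall fun t => ?_)
    simp only [norm_pow]; ring
  have iv2 : IntegrableOn (fun t => om k δ t * ‖v t‖ ^ 2) (Set.Ioi 0) := PGnsq hv k hδ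
  have iom : IntegrableOn (om k δ) (Set.Ioi 0) := by
    have := om_poly k 0 hδ
    simpa using this
  have q1 : IntegrableOn (fun t : ℝ => MU * (T ^ (-(3 / 4) : ℝ) * (om k δ t + om k δ t *
    ‖riemannZeta (cl t)‖ ^ 8 + om k δ t * ‖v t‖ ^ 2))) (Set.Ioi 0) :=
    (((iom.add i8).add iv2).const_mul _).const_mul _
  have q2 : IntegrableOn (fun t : ℝ => T ^ (-20 : ℝ) * (576 * MU * MV * (1 + t) ^ (-14 : ℝ)))
      (Set.Ioi 0) := (tail_int.1.const_mul _).const_mul _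
  have ig : IntegrableOn g (Set.Ioi 0) := q1.add q2
  have hDg : ∀ t ∈ Set.Ioi (0:ℝ), ‖D t‖ ≤ g t := by
    intro t ht
    have ht0 : (0:ℝ) < t := ht
    have h1 := ha t ht0
    have hn := om_nonneg k hδ ht0.le
    simp only [hD, hg]
    rw [norm_mul, norm_mul, norm_mul]
    have hz := z2_bound ht0.le
    have hz2 : ‖riemannZeta (cl t) ^ 2‖ * ‖v t‖ ≤ 1 + ‖riemannZeta (cl t)‖ ^ 8 + ‖v t‖ ^ 2 := by
      rw [norm_pow]
      nlinarith [sq_nonneg (‖riemannZeta (cl t)‖ ^ 2 - ‖v t‖),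
        sq_nonneg (‖riemannZeta (cl t)‖ ^ 4 - 1), sq_nonneg (‖v t‖),
        sq_nonneg (‖riemannZeta (cl t)‖ ^ 4)]
    have e14 : (1 + t) ^ 4 * (1 + t) ^ (-20 : ℝ) ≤ (1 + t) ^ (-14 : ℝ) := by
      rw [← Real.rpow_natCast, ← Real.rpow_add (by linarith)]
      exact Real.rpow_le_rpow_of_exponent_le (by linarith) (by norm_num)
    calc ‖riemannZeta (cl t) ^ 2‖ * ‖(om k δ t : ℂ) * Xf (cl t) - Gf k δ (cl t)‖ *
          (‖u t‖ * ‖v t‖)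
        ≤ ‖riemannZeta (cl t) ^ 2‖ * (T ^ (-(3 / 4) : ℝ) * om k δ t +
            T ^ (-20 : ℝ) * (1 + t) ^ (-20 : ℝ)) * (MU * ‖v t‖) := by
          gcongr
          exact hMU t
      _ = MU * (T ^ (-(3 / 4) : ℝ) * (om k δ t * (‖riemannZeta (cl t) ^ 2‖ * ‖v t‖))) +
            T ^ (-20 : ℝ) * (MU * ‖v t‖ * (‖riemannZeta (cl t) ^ 2‖ * (1 + t) ^ (-20 : ℝ))) := by
          ring
      _ ≤ MU * (T ^ (-(3 / 4) : ℝ) * (om k δ t * (1 + ‖riemannZeta (cl t)‖ ^ 8 + ‖v t‖ ^ 2))) +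
            T ^ (-20 : ℝ) * (MU * MV * (576 * (1 + t) ^ 4 * (1 + t) ^ (-20 : ℝ))) := by
          gcongr
          exact hMV t
      _ ≤ MU * (T ^ (-(3 / 4) : ℝ) * (om k δ t * (1 + ‖riemannZeta (cl t)‖ ^ 8 + ‖v t‖ ^ 2))) +
            T ^ (-20 : ℝ) * (MU * MV * (576 * (1 + t) ^ (-14 : ℝ))) := by
          have : 576 * (1 + t) ^ 4 * (1 + t) ^ (-20 : ℝ) ≤ 576 * (1 + t) ^ (-14 : ℝ) := by
            rw [mul_assoc]
            gcongr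
          gcongr
      _ = _ := by ring
  have iD : IntegrableOn D (Set.Ioi 0) :=
    Integrable.mono' ig hDc.aestronglyMeasurable
      ((ae_restrict_iff' measurableSet_Ioi).mpr (Eventually.of_forall hDg))
  have hDn : ‖∫ t in Set.Ioi (0:ℝ), D t‖ ≤ ∫ t in Set.Ioi (0:ℝ), g t := by
    refine norm_integral_le_of_norm_le ig ?_
    exact (ae_restrict_iff' measurableSet_Ioi).mpr (Eventually.of_forall hDg)
  have hgI : ∫ t in Set.Ioi (0:ℝ), g t ≤ MU * (T ^ (-(3 / 4) : ℝ) *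
      (1 + (∫ t in Set.Ioi (0:ℝ), om k δ t * ‖riemannZeta (cl t)‖ ^ 8) +
        ∫ t in Set.Ioi (0 : ℝ), om k δ t * ‖v t‖ ^ 2)) +
      T ^ (-20 : ℝ) * (576 * MU * MV) := by
    simp only [hg]
    rw [integral_add q1 q2, integral_const_mul, integral_const_mul, integral_const_mul,
      integral_const_mul]
    have e1 : ∫ t in Set.Ioi (0:ℝ), (om k δ t + om k δ t * ‖riemannZeta (cl t)‖ ^ 8 +
        om k δ t * ‖v t‖ ^ 2) =
        1 + (∫ t in Set.Ioi (0:ℝ), om k δ t * ‖riemannZeta (cl t)‖ ^ 8) +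
          ∫ t in Set.Ioi (0 : ℝ), om k δ t * ‖v t‖ ^ 2 := by
      have i12 : IntegrableOn (fun t => om k δ t + om k δ t * ‖riemannZeta (cl t)‖ ^ 8)
        (Set.Ioi 0) := iom.add i8
      rw [integral_add i12 iv2, integral_add iom i8, om_mass k hδ]
    rw [e1]
    have h14 := tail_int.2
    have h20 : 0 ≤ T ^ (-20 : ℝ) := by positivity
    have h576 : 0 ≤ 576 * MU * MV := by positivity
    have h3 : T ^ (-20 : ℝ) * (576 * MU * MV * ∫ t in Set.Ioi (0:ℝ), (1 + t) ^ (-14 : ℝ)) ≤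
        T ^ (-20 : ℝ) * (576 * MU * MV * 1) := by
      gcongr
    linarith
  exact ⟨iD, hDn.trans hgI⟩

lemma G_int {T : ℝ} (hT : 1 < T) {k : ℕ} {δ : ℝ} (hδ : 0 < δ)
    (ha : ∀ t : ℝ, 0 < t → ‖(om k δ t : ℂ) * Xf (cl t) - Gf k δ (cl t)‖ ≤
        T ^ (-(3 / 4) : ℝ) * om k δ t + T ^ (-20 : ℝ) * (1 + t) ^ (-20 : ℝ)) (φ : ℝ) :
    IntegrableOn (fun t : ℝ => riemannZeta (cl t) ^ 2 * Gf k δ (cl t) * ef φ t) (Set.Ioi 0) := by
  have h1 := (D_est hT hδ ha (fun _ => 1) (ef φ) continuous_const (PG.ef φ) 1 1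
    (fun t => by simp) (fun t => by rw [ef_norm])).1
  have h2 : IntegrableOn (fun t : ℝ => (om k δ t : ℂ) * (riemannZeta (cl t) ^ 2 * Xf (cl t) *
      ef φ t)) (Set.Ioi 0) := (((PG.zeta.pow 2).mul PG.X).mul (PG.ef φ)).int k hδ
  refine (h2.sub h1).congr (Eventually.of_forall fun t => ?_)
  simp only [Pi.sub_apply]
  ring

lemma hp_mp {ε T : ℝ} (hε : 0 < ε) (hT : 1 < T) {b : ℕ × ℕ} (hb : Adm ε T b) {n : ℕ} (hn : 1 ≤ n)
    (hnT : (n : ℝ) ≤ T ^ (1 / 2 - ε)) :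
    1 ≤ hp b.1 n ∧ 1 ≤ mp b.1 b.2 n ∧ (hp b.1 n : ℝ) ≤ T ∧ (mp b.1 b.2 n : ℝ) ≤ T ∧
      Real.log ((hp b.1 n : ℝ) / mp b.1 b.2 n) = Real.log ((b.1 : ℝ) / b.2) + -(Real.log n) := by
  obtain ⟨h1, h2, h3, h4, h5⟩ := hb
  have hT0 : 0 < T := by linarith
  have hg : 0 < Nat.gcd b.1 n := Nat.gcd_pos_of_pos_left _ h1
  obtain ⟨x, hx⟩ := Nat.gcd_dvd_left b.1 n
  obtain ⟨y, hy⟩ := Nat.gcd_dvd_right b.1 n
  have hxe : hp b.1 n = x := by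
    unfold hp
    nth_rewrite 1 [hx]
    exact Nat.mul_div_cancel_left _ hg
  have hye : mp b.1 b.2 n = b.2 * y := by
    unfold mp
    congr 1
    nth_rewrite 1 [hy]
    exact Nat.mul_div_cancel_left _ hg
  have hx1 : 1 ≤ x := by
    rcases Nat.eq_zero_or_pos x with h0 | h0
    · rw [h0, mul_zero] at hx; omega
    · exact h0
  have hy1 : 1 ≤ y := by
    rcases Nat.eq_zero_or_pos y with h0 | h0
    · rw [h0, mul_zero] at hy; omega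
    · exact h0
  have hxb : x ≤ b.1 := by
    calc x = 1 * x := (one_mul x).symm
      _ ≤ Nat.gcd b.1 n * x := Nat.mul_le_mul_right _ hg
      _ = b.1 := hx.symm
  have hyn : y ≤ n := by
    calc y = 1 * y := (one_mul y).symm
      _ ≤ Nat.gcd b.1 n * y := Nat.mul_le_mul_right _ hg
      _ = n := hy.symm
  have hTh : T ^ (1 / 2 - ε) ≤ T := by
    calc T ^ (1 / 2 - ε) ≤ T ^ (1 : ℝ) :=
          Real.rpow_le_rpow_of_exponent_le hT.le (by linarith)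
      _ = T := Real.rpow_one T
  have hTh2 : T ^ (1 / 2 - ε) * T ^ (1 / 2 - ε) ≤ T := by
    rw [← Real.rpow_add hT0]
    calc T ^ (1 / 2 - ε + (1 / 2 - ε)) ≤ T ^ (1 : ℝ) :=
          Real.rpow_le_rpow_of_exponent_le hT.le (by linarith)
      _ = T := Real.rpow_one T
  rw [hxe, hye]
  refine ⟨hx1, Nat.mul_pos h2 hy1, ?_, ?_, ?_⟩
  · have : (x : ℝ) ≤ b.1 := by exact_mod_cast hxb
    linarith
  · have e1 : (y : ℝ) ≤ n := by exact_mod_cast hyn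
    push_cast
    calc (b.2 : ℝ) * y ≤ T ^ (1 / 2 - ε) * T ^ (1 / 2 - ε) := by
          apply mul_le_mul h5 (e1.trans hnT) (by positivity) (by positivity)
      _ ≤ T := hTh2
  · have p1 : (0 : ℝ) < b.1 := by exact_mod_cast h1
    have p2 : (0 : ℝ) < b.2 := by exact_mod_cast h2
    have p3 : (0 : ℝ) < n := by exact_mod_cast hn
    have p4 : (0 : ℝ) < x := by exact_mod_cast hx1
    have p5 : (0 : ℝ) < y := by exact_mod_cast hy1
    have p6 : (0 : ℝ) < Nat.gcd b.1 n := by exact_mod_cast hg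
    rw [← Real.log_inv, ← Real.log_mul (by positivity) (by positivity)]
    congr 1
    have e1 : (b.1 : ℝ) = Nat.gcd b.1 n * x := by exact_mod_cast hx
    have e2 : (n : ℝ) = Nat.gcd b.1 n * y := by exact_mod_cast hy
    rw [e1]
    nth_rewrite 1 [e2]
    push_cast
    field_simp

lemma G_sum {T : ℝ} (hT : 1 < T) {k : ℕ} {δ : ℝ} (hδ : 0 < δ)
    (ha : ∀ t : ℝ, 0 < t → ‖(om k δ t : ℂ) * Xf (cl t) - Gf k δ (cl t)‖ ≤
        T ^ (-(3 / 4) : ℝ) * om k δ t + T ^ (-20 : ℝ) * (1 + t) ^ (-20 : ℝ)) (N : ℕ) (a : ℕ → ℝ)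
    (S : Finset (ℕ × ℕ)) (c : ℕ × ℕ → ℝ) :
    IntegrableOn (fun t : ℝ => riemannZeta (cl t) ^ 2 * Gf k δ (cl t) * (Af N a t * Cf S c t))
      (Set.Ioi 0) ∧
    ∫ t in Set.Ioi (0 : ℝ), riemannZeta (cl t) ^ 2 * Gf k δ (cl t) * (Af N a t * Cf S c t) =
      ∑ b ∈ S, (c b : ℂ) * ∑ n ∈ Icc 1 N, ((a n / Real.sqrt n : ℝ) : ℂ) *
        ∫ t in Set.Ioi (0 : ℝ), riemannZeta (cl t) ^ 2 * Gf k δ (cl t) *
          ef (Real.log ((b.1 : ℝ) / b.2) + -(Real.log n)) t := by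
  have h1 : (fun t : ℝ => riemannZeta (cl t) ^ 2 * Gf k δ (cl t) * (Af N a t * Cf S c t)) =
      fun t : ℝ => ∑ b ∈ S, (c b : ℂ) * ∑ n ∈ Icc 1 N, ((a n / Real.sqrt n : ℝ) : ℂ) *
        (riemannZeta (cl t) ^ 2 * Gf k δ (cl t) *
          ef (Real.log ((b.1 : ℝ) / b.2) + -(Real.log n)) t) := by
    funext t
    unfold Af Cf
    rw [mul_comm (∑ n ∈ Icc 1 N, _), Finset.sum_mul, Finset.mul_sum]
    refine sum_congr rfl fun b _ => ?_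
    rw [Finset.mul_sum, Finset.mul_sum, Finset.mul_sum]
    refine sum_congr rfl fun n _ => ?_
    rw [← ef_mul]
    ring
  have h2 : ∀ b ∈ S, ∀ n ∈ Icc 1 N, IntegrableOn (fun t : ℝ => ((a n / Real.sqrt n : ℝ) : ℂ) *
      (riemannZeta (cl t) ^ 2 * Gf k δ (cl t) *
          ef (Real.log ((b.1 : ℝ) / b.2) + -(Real.log n)) t)) (Set.Ioi 0) :=
    fun b _ n _ => (G_int hT hδ ha _).const_mul _
  have h3 : ∀ b ∈ S, IntegrableOn (fun t : ℝ => (c b : ℂ) * ∑ n ∈ Icc 1 N,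
      ((a n / Real.sqrt n : ℝ) : ℂ) * (riemannZeta (cl t) ^ 2 * Gf k δ (cl t) *
          ef (Real.log ((b.1 : ℝ) / b.2) + -(Real.log n)) t)) (Set.Ioi 0) :=
    fun b hb => (integrable_finsetSum _ fun n hn => h2 b hb n hn).const_mul _
  refine ⟨?_, ?_⟩
  · rw [h1]
    exact integrable_finsetSum _ fun b hb => h3 b hb
  · simp only [h1]
    rw [integral_finsetSum _ h3]
    refine sum_congr rfl fun b hb => ?_
    rw [integral_const_mul, integral_finsetSum _ (h2 b hb)]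
    congr 1
    refine sum_congr rfl fun n _ => ?_
    rw [integral_const_mul]

/-- T11 -/
theorem TW_of
    (twist2 : ∀ᶠ T : ℝ in atTop, ∀ k : ℕ, kr' T k →
      ∀ h m : ℕ, 1 ≤ h → 1 ≤ m → (h : ℝ) ≤ T → (m : ℝ) ≤ T →
        ‖(∫ t in Set.Ioi (0 : ℝ), riemannZeta (cl t) ^ 2 * Gf k (k / T) (cl t) *
            ef (Real.log ((h : ℝ) / m)) t) -
          (Real.sqrt ((m : ℝ) / h) : ℂ) * (SS2 k h m (Yf k T) /
            (((k.factorial : ℝ) * Yf k T ^ (k + 1) : ℝ) : ℂ))‖ ≤ T ^ (-6 : ℝ))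
    (err_ms : ∀ (ε : ℝ) (_ : 0 < ε) (_ : ε < 1 / 4), ∃ e : ℝ, 0 < e ∧ ∀ᶠ T : ℝ in atTop,
      ∀ k : ℕ, kr' T k → ∀ N : ℕ, (N : ℝ) ≤ T ^ (1 / 2 - ε) →
      ∀ a : ℕ → ℝ, (∀ n, |a n| ≤ d2 n) → ∀ S : Finset (ℕ × ℕ), (∀ b ∈ S, Adm ε T b) →
      ∑ b ∈ S, ‖Err k (Yf k T) N a b.1 b.2‖ ^ 2 ≤ T ^ (-e))
    (ε : ℝ) (hε : 0 < ε) (hε1 : ε < 1 / 4) : ∃ e : ℝ, 0 < e ∧ ∀ᶠ T : ℝ in atTop,
    ∀ k : ℕ, kr' T k → ∀ N : ℕ, (N : ℝ) ≤ T ^ (1 / 2 - ε) →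
    ∀ a : ℕ → ℝ, (∀ n, |a n| ≤ d2 n) → ∀ S : Finset (ℕ × ℕ), (∀ b ∈ S, Adm ε T b) →
    ∀ c : ℕ × ℕ → ℝ,
    ‖(∫ t in Set.Ioi (0 : ℝ), (om k (k / T) t : ℂ) * (riemannZeta (cl t) ^ 2 * Xf (cl t)) *
        (∑ n ∈ Icc 1 N, ((a n / Real.sqrt n : ℝ) : ℂ) * ef (-(Real.log n)) t) *
        (∑ b ∈ S, (c b : ℂ) * ef (Real.log ((b.1 : ℝ) / b.2)) t)) -
      ((∑ b ∈ S, c b * ∑ n ∈ Icc 1 N, a n / Real.sqrt n * Mt k (Yf k T) b.1 b.2 n : ℝ) : ℂ)‖ ≤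
    T ^ (-e) * (1 + ∫ t in Set.Ioi (0 : ℝ), om k (k / T) t * ‖riemannZeta (cl t)‖ ^ 8) *
      (1 + ∑ b ∈ S, c b ^ 2) := by
  obtain ⟨e1, he1, hE⟩ := err_ms ε hε hε1
  set e0 : ℝ := min (3 / 2 * ε) (min (e1 / 2) 1) with he0
  have he0p : 0 < e0 := lt_min (by positivity) (lt_min (by positivity) one_pos)
  have he0a : e0 ≤ 3 / 2 * ε := min_le_left _ _
  have he0b : e0 ≤ e1 / 2 := (min_le_right _ _).trans (min_le_left _ _)
  have he0c : e0 ≤ 1 := (min_le_right _ _).trans (min_le_right _ _)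
  refine ⟨e0 / 2, by positivity, ?_⟩
  have hbig : ∀ᶠ T : ℝ in atTop, 5 ≤ T ^ (e0 / 2) :=
    (tendsto_rpow_atTop (by positivity)).eventually_ge_atTop _
  filter_upwards [Gf_approx, twist2, hE, small_pow (2 * ε) (by positivity), hbig,
    eventually_gt_atTop (Real.exp 1), eventually_gt_atTop 600] with T ha hm hE hsp hbig hTe hT600
    k hk N hN a haN S hS c
  have hT : 1 < T := by linarith
  have hT0 : 0 < T := by linarith
  obtain ⟨hk1, hδ⟩ := kr_pos hTe (show kr T k from hk)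
  replace ha := ha k hk.1 hk.2
  replace hm := hm k hk
  replace hE := hE k hk N hN a haN S hS
  replace hsp := hsp k hk
  set I8 : ℝ := ∫ t in Set.Ioi (0 : ℝ), om k (k / T) t * ‖riemannZeta (cl t)‖ ^ 8 with hI8
  have hI80 : 0 ≤ I8 := by
    refine setIntegral_nonneg measurableSet_Ioi fun t ht => ?_
    exact mul_nonneg (om_nonneg k hδ (le_of_lt ht)) (by positivity)
  set Q : ℝ := ∑ b ∈ S, c b ^ 2 with hQ
  have hQ0 : 0 ≤ Q := sum_nonneg fun b _ => sq_nonneg _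
  set MU : ℝ := T ^ (3 / 4 - 3 / 2 * ε) with hMU
  have hMU0 : 0 ≤ MU := by positivity
  set MV : ℝ := ∑ b ∈ S, |c b| with hMV
  have hMV0 : 0 ≤ MV := sum_nonneg fun b _ => abs_nonneg _
  have hMVle : MV ≤ T * (1 + Q) := sum_c hε hT S hS c
  have hMUle : MU ≤ T := by
    calc MU ≤ T ^ (1 : ℝ) := Real.rpow_le_rpow_of_exponent_le hT.le (by linarith)
      _ = T := Real.rpow_one T
  have hAs := sum_a_le hT N hN a haN
  obtain ⟨iD, hD⟩ := D_est hT hδ ha (Af N a) (Cf S c) (PG_Af N a).1 (PG_Cf S c) MU MV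
    (fun t => (Af_norm N a t).trans hAs) (fun t => Cf_norm S c t)
  obtain ⟨iG, hG⟩ := G_sum hT hδ ha N a S c
  have hIC := int_C hε hT k hδ hsp S hS c
  -- the splitting
  have hsplit : (∫ t in Set.Ioi (0 : ℝ), (om k (k / T) t : ℂ) *
        (riemannZeta (cl t) ^ 2 * Xf (cl t)) *
        (∑ n ∈ Icc 1 N, ((a n / Real.sqrt n : ℝ) : ℂ) * ef (-(Real.log n)) t) *
        (∑ b ∈ S, (c b : ℂ) * ef (Real.log ((b.1 : ℝ) / b.2)) t)) =
      (∫ t in Set.Ioi (0 : ℝ), riemannZeta (cl t) ^ 2 *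
      ((om k (k / T) t : ℂ) * Xf (cl t) - Gf k (k / T) (cl t)) * (Af N a t * Cf S c t)) +
      ∫ t in Set.Ioi (0 : ℝ), riemannZeta (cl t) ^ 2 * Gf k (k / T) (cl t) *
        (Af N a t * Cf S c t) := by
    rw [← integral_add iD iG]
    refine integral_congr_ae (Eventually.of_forall fun t => ?_)
    simp only [Af, Cf]
    ring
  -- the twisted integrals
  have hJ : ∀ b ∈ S, ∀ n ∈ Icc 1 N, ‖(∫ t in Set.Ioi (0 : ℝ), riemannZeta (cl t) ^ 2 *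
      Gf k (k / T) (cl t) * ef (Real.log ((b.1 : ℝ) / b.2) + -(Real.log n)) t) -
      Tv k (Yf k T) b.1 b.2 n‖ ≤ T ^ (-6 : ℝ) := by
    intro b hb n hn
    have hnN : (n : ℝ) ≤ N := by exact_mod_cast (mem_Icc.1 hn).2
    obtain ⟨q1, q2, q3, q4, q5⟩ := hp_mp hε hT (hS b hb) (mem_Icc.1 hn).1 (hnN.trans hN)
    have h := hm (hp b.1 n) (mp b.1 b.2 n) q1 q2 q3 q4
    rw [q5] at h
    exact h
  have hsum : (∑ b ∈ S, (c b : ℂ) * ∑ n ∈ Icc 1 N, ((a n / Real.sqrt n : ℝ) : ℂ) *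
        ∫ t in Set.Ioi (0 : ℝ), riemannZeta (cl t) ^ 2 * Gf k (k / T) (cl t) *
          ef (Real.log ((b.1 : ℝ) / b.2) + -(Real.log n)) t) -
      ((∑ b ∈ S, c b * ∑ n ∈ Icc 1 N, a n / Real.sqrt n * Mt k (Yf k T) b.1 b.2 n : ℝ) : ℂ) =
      (∑ b ∈ S, (c b : ℂ) * ∑ n ∈ Icc 1 N, ((a n / Real.sqrt n : ℝ) : ℂ) *
        ((∫ t in Set.Ioi (0 : ℝ), riemannZeta (cl t) ^ 2 * Gf k (k / T) (cl t) *
          ef (Real.log ((b.1 : ℝ) / b.2) + -(Real.log n)) t) - Tv k (Yf k T) b.1 b.2 n)) +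
      ∑ b ∈ S, (c b : ℂ) * Err k (Yf k T) N a b.1 b.2 := by
    rw [Complex.ofReal_sum, ← Finset.sum_sub_distrib, ← Finset.sum_add_distrib]
    refine sum_congr rfl fun b _ => ?_
    unfold Err
    rw [Complex.ofReal_mul, Complex.ofReal_sum, ← mul_sub, ← mul_add, ← Finset.sum_sub_distrib,
      ← Finset.sum_add_distrib]
    congr 1
    refine sum_congr rfl fun n _ => ?_
    rw [Complex.ofReal_mul]
    ring
  have hb2 : ‖∑ b ∈ S, (c b : ℂ) * ∑ n ∈ Icc 1 N, ((a n / Real.sqrt n : ℝ) : ℂ) *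
        ((∫ t in Set.Ioi (0 : ℝ), riemannZeta (cl t) ^ 2 * Gf k (k / T) (cl t) *
          ef (Real.log ((b.1 : ℝ) / b.2) + -(Real.log n)) t) - Tv k (Yf k T) b.1 b.2 n)‖ ≤
      MV * (MU * T ^ (-6 : ℝ)) := by
    refine (norm_sum_le _ _).trans ?_
    rw [hMV, Finset.sum_mul]
    refine sum_le_sum fun b hb => ?_
    rw [norm_mul, Complex.norm_real, Real.norm_eq_abs]
    refine mul_le_mul_of_nonneg_left ?_ (abs_nonneg _)
    refine (norm_sum_le _ _).trans ?_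
    calc ∑ n ∈ Icc 1 N, ‖((a n / Real.sqrt n : ℝ) : ℂ) *
        ((∫ t in Set.Ioi (0 : ℝ), riemannZeta (cl t) ^ 2 * Gf k (k / T) (cl t) *
          ef (Real.log ((b.1 : ℝ) / b.2) + -(Real.log n)) t) - Tv k (Yf k T) b.1 b.2 n)‖
        ≤ ∑ n ∈ Icc 1 N, |a n / Real.sqrt n| * T ^ (-6 : ℝ) := by
          refine sum_le_sum fun n hn => ?_
          rw [norm_mul, Complex.norm_real, Real.norm_eq_abs]
          exact mul_le_mul_of_nonneg_left (hJ b hb n hn) (abs_nonneg _)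
      _ = (∑ n ∈ Icc 1 N, |a n / Real.sqrt n|) * T ^ (-6 : ℝ) := by rw [Finset.sum_mul]
      _ ≤ MU * T ^ (-6 : ℝ) := mul_le_mul_of_nonneg_right hAs (by positivity)
  have hb3 : ‖∑ b ∈ S, (c b : ℂ) * Err k (Yf k T) N a b.1 b.2‖ ≤ T ^ (-(e1 / 2)) * (1 + Q) := by
    have h1 : ‖∑ b ∈ S, (c b : ℂ) * Err k (Yf k T) N a b.1 b.2‖ ≤
        ∑ b ∈ S, |c b| * ‖Err k (Yf k T) N a b.1 b.2‖ := by
      refine (norm_sum_le _ _).trans (sum_le_sum fun b _ => ?_)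
      rw [norm_mul, Complex.norm_real, Real.norm_eq_abs]
    refine h1.trans ?_
    have h2 := Finset.sum_mul_sq_le_sq_mul_sq S (fun b => |c b|)
      (fun b => ‖Err k (Yf k T) N a b.1 b.2‖)
    simp only [sq_abs] at h2
    refine abs_le_of_sq_le_sq' ?_ (by positivity) |>.2
    have e2 : (T ^ (-(e1 / 2))) ^ 2 = T ^ (-e1) := by
      rw [← Real.rpow_natCast, ← Real.rpow_mul hT0.le]
      congr 1
      push_cast
      ring
    calc (∑ b ∈ S, |c b| * ‖Err k (Yf k T) N a b.1 b.2‖) ^ 2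
        ≤ Q * ∑ b ∈ S, ‖Err k (Yf k T) N a b.1 b.2‖ ^ 2 := h2
      _ ≤ Q * T ^ (-e1) := mul_le_mul_of_nonneg_left hE hQ0
      _ ≤ (1 + Q) ^ 2 * T ^ (-e1) := by
          apply mul_le_mul_of_nonneg_right _ (by positivity)
          nlinarith
      _ = (T ^ (-(e1 / 2)) * (1 + Q)) ^ 2 := by rw [mul_pow, e2]; ring
  -- powers of T
  have pe : ∀ x : ℝ, e0 ≤ x → T ^ (-x) ≤ T ^ (-e0) := fun x hx =>
    Real.rpow_le_rpow_of_exponent_le hT.le (by linarith)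
  have hW : 1 + Q ≤ (1 + I8) * (1 + Q) := by nlinarith
  have hW2 : 1 + I8 + 2 * Q ≤ 2 * ((1 + I8) * (1 + Q)) := by nlinarith [mul_nonneg hI80 hQ0]
  have hW0 : 0 ≤ (1 + I8) * (1 + Q) := by positivity
  have f1 : MU * T ^ (-(3 / 4) : ℝ) = T ^ (-(3 / 2 * ε)) := by
    rw [hMU, ← Real.rpow_add hT0]
    congr 1
    ring
  have f2 : T ^ (-20 : ℝ) * (576 * MU * MV) ≤ T ^ (-e0) * ((1 + I8) * (1 + Q)) := by
    calc T ^ (-20 : ℝ) * (576 * MU * MV) ≤ T ^ (-20 : ℝ) * (T * T * (T * (1 + Q))) := by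
          have : (576 : ℝ) ≤ T := by linarith
          gcongr
      _ = T ^ (-17 : ℝ) * (1 + Q) := by
          have : T ^ (-17 : ℝ) = T ^ (-20 : ℝ) * (T * T * T) := by
            rw [show T * T * T = T ^ (3 : ℝ) by
              rw [show (3 : ℝ) = ((3 : ℕ) : ℝ) by norm_num, Real.rpow_natCast]; ring]
            rw [← Real.rpow_add hT0]
            norm_num
          rw [this]
          ring
      _ ≤ T ^ (-e0) * ((1 + I8) * (1 + Q)) := by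
          refine mul_le_mul (pe 17 (by linarith)) hW (by positivity) (by positivity)
  have f3 : MV * (MU * T ^ (-6 : ℝ)) ≤ T ^ (-e0) * ((1 + I8) * (1 + Q)) := by
    calc MV * (MU * T ^ (-6 : ℝ)) ≤ (T * (1 + Q)) * (T * T ^ (-6 : ℝ)) := by gcongr
      _ = T ^ (-4 : ℝ) * (1 + Q) := by
          have : T ^ (-4 : ℝ) = T ^ (-6 : ℝ) * (T * T) := by
            rw [show T * T = T ^ (2 : ℝ) by
              rw [show (2 : ℝ) = ((2 : ℕ) : ℝ) by norm_num, Real.rpow_natCast]; ring]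
            rw [← Real.rpow_add hT0]
            norm_num
          rw [this]
          ring
      _ ≤ T ^ (-e0) * ((1 + I8) * (1 + Q)) := by
          refine mul_le_mul (pe 4 (by linarith)) hW (by positivity) (by positivity)
  have f4 : T ^ (-(e1 / 2)) * (1 + Q) ≤ T ^ (-e0) * ((1 + I8) * (1 + Q)) :=
    mul_le_mul (pe _ he0b) hW (by positivity) (by positivity)
  have f5 : MU * (T ^ (-(3 / 4) : ℝ) * (1 + I8 + ∫ t in Set.Ioi (0 : ℝ), om k (k / T) t *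
      ‖Cf S c t‖ ^ 2)) ≤ 2 * (T ^ (-e0) * ((1 + I8) * (1 + Q))) := by
    rw [← mul_assoc, f1]
    calc T ^ (-(3 / 2 * ε)) * (1 + I8 + ∫ t in Set.Ioi (0 : ℝ), om k (k / T) t *
        ‖Cf S c t‖ ^ 2) ≤ T ^ (-e0) * (2 * ((1 + I8) * (1 + Q))) := by
          refine mul_le_mul (pe _ he0a) (by linarith) ?_ (by positivity)
          have : 0 ≤ ∫ t in Set.Ioi (0 : ℝ), om k (k / T) t * ‖Cf S c t‖ ^ 2 :=
            setIntegral_nonneg measurableSet_Ioi fun t ht =>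
              mul_nonneg (om_nonneg k hδ (le_of_lt ht)) (by positivity)
          linarith
      _ = _ := by ring
  have f6 : 5 * (T ^ (-e0) * ((1 + I8) * (1 + Q))) ≤ T ^ (-(e0 / 2)) * (1 + I8) * (1 + Q) := by
    have : T ^ (-(e0 / 2)) = T ^ (e0 / 2) * T ^ (-e0) := by
      rw [← Real.rpow_add hT0]
      congr 1
      ring
    rw [this]
    calc 5 * (T ^ (-e0) * ((1 + I8) * (1 + Q))) ≤
        T ^ (e0 / 2) * (T ^ (-e0) * ((1 + I8) * (1 + Q))) :=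
          mul_le_mul_of_nonneg_right hbig (by positivity)
      _ = _ := by ring
  rw [hsplit, hG, add_sub_assoc, hsum]
  refine (norm_add_le _ _).trans ?_
  have g1 := norm_add_le (∑ b ∈ S, (c b : ℂ) * ∑ n ∈ Icc 1 N, ((a n / Real.sqrt n : ℝ) : ℂ) *
        ((∫ t in Set.Ioi (0 : ℝ), riemannZeta (cl t) ^ 2 * Gf k (k / T) (cl t) *
          ef (Real.log ((b.1 : ℝ) / b.2) + -(Real.log n)) t) - Tv k (Yf k T) b.1 b.2 n))
      (∑ b ∈ S, (c b : ℂ) * Err k (Yf k T) N a b.1 b.2)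
  linarith

end

end Pool.Agent.H133R2.EM11
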